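import Mathlib
import Pool.Agent.H.MP_f6f6d4_al.McLain

set_option autoImplicit false
open scoped commutatorElement
open Pool.Agent.H.MP_f6f6d4_al

namespace Pool.Agent.Results.MP_f6f6d4_al.Yes

/-- right cosets of the diagonal subgroup of T^(m+1) -/
abbrev Om (T : Type) [Group T] (m : ℕ) : Type :=
  Quotient (QuotientGroup.rightRel (Pi.constMonoidHom (Fin (m + 1)) T).range)

/-- the diagonal group -/
def D (T : Type) [Group T] (m : ℕ) : Subgroup (Equiv.Perm (Om T m)) :=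
  Subgroup.closure {π | (∃ t : Fin (m + 1) → T, ∀ x, π ⟦x⟧ = ⟦x * t⟧) ∨
    (∃ α : MulAut T, ∀ x, π ⟦x⟧ = ⟦fun i => α (x i)⟧) ∨
    ∃ σ : Equiv.Perm (Fin (m + 1)), ∀ x, π ⟦x⟧ = ⟦x ∘ σ⟧}

/-- the transported partition Q_J, as the set of pairs lying in one part -/
def Q {Ω Δ : Type} {n : ℕ} (f : Ω ≃ (Fin n → Δ)) (J : Set (Fin n)) : Set (Ω × Ω) :=
  {p | ∀ i ∉ J, f p.1 i = f p.2 i}

def Preserves {Ω : Type} (G : Subgroup (Equiv.Perm Ω)) : Prop :=
  ∃ (Δ : Type) (n : ℕ) (f : Ω ≃ (Fin n → Δ)), Nontrivial Δ ∧ 2 ≤ n ∧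
    ∀ g ∈ G, (fun P => Prod.map g g '' P) '' Set.range (Q f) = Set.range (Q f)

variable {H : Type} [Group H] {e : ℚ → ℚ → H}

lemma central (hG : Good H e) {s : H} (h : ∀ k, Commute s k) : s = 1 := by
  by_contra hs
  obtain ⟨a, b, hab, hk⟩ := hG.key s hs
  obtain ⟨g, k, e'⟩ := hk a le_rfl b le_rfl
  rw [(h g).commutator_eq, commutatorElement_one_left] at e'
  exact hG.ne a b hab e'

lemma nmem (hG : Good H e) (N : Subgroup (Fin 2 → H)) [hN : N.Normal] {x : Fin 2 → H}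
    (hx : x ∈ N) (h1 : x ≠ 1) :
    ∃ j a b, a < b ∧ ∀ α ≤ a, ∀ β ≥ b, Pi.mulSingle j (e α β) ∈ N := by
  obtain ⟨j, hj⟩ := Function.ne_iff.1 h1
  obtain ⟨a, b, hab, hk⟩ := hG.key (x j) hj
  refine ⟨j, a, b, hab, fun α hα β hβ => ?_⟩
  obtain ⟨g, k, e'⟩ := hk α hα β hβ
  have c : ∀ y ∈ N, ∀ z, ⁅y, z⁆ ∈ N := fun y hy z => by
    rw [commutatorElement_def, mul_assoc, mul_assoc, ← mul_assoc z]
    exact N.mul_mem hy (by simpa using hN.conj_mem _ (N.inv_mem hy) z)
  convert c _ (c _ hx (Pi.mulSingle j g)) (Pi.mulSingle j k) using 1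
  ext i
  by_cases hi : i = j
  · subst hi; simp [e', commutatorElement_def]
  · simp [hi, commutatorElement_def]

lemma dec (t : Fin 2 → H) : t = Pi.mulSingle 0 (t 0) * Pi.mulSingle 1 (t 1) := by
  ext i; fin_cases i <;> simp

lemma nosimple (hG : Good H e) (S : Type) [Group S] [IsSimpleGroup S] (ι : S →* (Fin 2 → H))
    (hι : Function.Injective ι) [ι.range.Normal] : False := by
  obtain ⟨s, hs⟩ := exists_ne (1 : S)
  obtain ⟨j, a, b, hab, h⟩ := nmem hG ι.range ⟨s, rfl⟩ ((map_ne_one_iff ι hι).2 hs)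
  obtain ⟨N, hN, h1, h2⟩ := hG.nor a b hab
  obtain ⟨p, hp⟩ := h (a - 1) (by linarith) b le_rfl
  obtain ⟨q, hq⟩ := h a le_rfl b le_rfl
  rcases (hN.comap ((Pi.evalMonoidHom (fun _ => H) j).comp ι)).eq_bot_or_eq_top with h0 | h0
  · have : p = 1 := Subgroup.mem_bot.1 (h0 ▸ show ι p j ∈ N by simpa [hp] using h1)
    have := congrFun hp j
    simp [‹p = 1›] at this
    exact hG.ne _ _ (by linarith) this.symm
  · have : ι q j ∈ N := (Subgroup.eq_top_iff' _).1 h0 q
    exact h2 (by simpa [hq] using this)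

lemma autperm (hG : Good H e) (β : MulAut (Fin 2 → H)) :
    ∃ σ : Equiv.Perm (Fin 2), ∀ t i, β t i = 1 ↔ t (σ i) = 1 := by
  have split : ∀ i j j' h, j' ≠ j → β.symm (Pi.mulSingle i (β (Pi.mulSingle j h) i)) j' = 1 := by
    intro i j j' h hj
    refine central hG fun k => ?_
    have c1 : Commute (β (Pi.mulSingle j h)) (β (Pi.mulSingle j' k)) :=
      (Pi.mulSingle_commute (f := fun _ => H) hj.symm h k).map β
    have c2 : Commute (Pi.mulSingle i (β (Pi.mulSingle j h) i) : Fin 2 → H)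
        (β (Pi.mulSingle j' k)) := by
      refine funext fun l => ?_
      by_cases hl : l = i
      · subst hl; simpa using congrFun c1 l
      · simp [hl]
    simpa [Commute, SemiconjBy] using congrFun (c2.map β.symm).eq j'
  have one : ∀ i, ∃ j', ∀ j, j' ≠ j → ∀ h, β (Pi.mulSingle j h) i = 1 := by
    intro i
    let N : Fin 2 → Subgroup H := fun j => ((Pi.evalMonoidHom (fun _ => H) j).comp
      (β.symm.toMonoidHom.comp (MonoidHom.mulSingle (fun _ => H) i))).ker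
    by_contra hn
    push Not at hn
    have hN : ∀ j, ∃ a b, a < b ∧ ∀ α ≤ a, ∀ γ ≥ b, e α γ ∈ N j := fun j' => by
      obtain ⟨j, hj, h, hh⟩ := hn j'
      obtain ⟨a, b, hab, hk⟩ := hG.key _ hh
      refine ⟨a, b, hab, fun α hα γ hγ => ?_⟩
      obtain ⟨g, k, e'⟩ := hk α hα γ hγ
      have := split i j j' h hj
      rw [e', MonoidHom.mem_ker, map_commutatorElement, map_commutatorElement,
        MonoidHom.mem_ker.1 (show β (Pi.mulSingle j h) i ∈ N j' from this)]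
      simp
    obtain ⟨a, b, hab, h0⟩ := hN 0
    obtain ⟨a', b', -, h1⟩ := hN 1
    refine hG.ne (min a a') (max b b') ((min_le_left _ _).trans_lt (hab.trans_le
      (le_max_left _ _))) (Pi.mulSingle_injective (M := fun _ => H) i (β.symm.injective ?_))
    ext j
    fin_cases j
    · simpa [N] using h0 _ (min_le_left _ _) _ (le_max_left _ _)
    · simpa [N] using h1 _ (min_le_right _ _) _ (le_max_right _ _)
  choose σ hσ using one
  have hinj : Function.Injective σ := by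
    intro i i' h
    by_contra hn
    obtain ⟨j, hj⟩ := exists_ne (σ i)
    refine hG.ne 0 1 one_pos (Pi.mulSingle_injective (M := fun _ => H) j (β.injective ?_))
    ext l
    have : l = i ∨ l = i' := by omega
    rcases this with rfl | rfl
    · simpa using hσ _ _ hj.symm _
    · simpa using hσ _ _ (h ▸ hj.symm) _
  refine ⟨Equiv.ofBijective σ (Finite.injective_iff_bijective.1 hinj), fun t i => ?_⟩
  have e1 : β t i = β (Pi.mulSingle (σ i) (t (σ i))) i := by
    rw [dec t, map_mul, Pi.mul_apply, ← dec t]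
    have : σ i = 0 ∨ σ i = 1 := by omega
    rcases this with h | h
    · rw [hσ i 1 (by simp [h]), mul_one, h]
    · rw [hσ i 0 (by simp [h]), one_mul, h]
  rw [e1]
  refine ⟨fun h => Pi.mulSingle_injective (M := fun _ => H) (σ i) (β.injective ?_),
    fun h => by simp [show t (σ i) = 1 from h]⟩
  ext l
  by_cases hl : l = i
  · simpa [hl] using h
  · simpa using hσ l _ (hinj.ne hl) _

def crd (H : Type) [Group H] (m : ℕ) : Om (Fin 2 → H) m ≃ (Fin 2 → Fin m → H) where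
  toFun := Quotient.lift (fun x j i => ((x 0)⁻¹ * x i.succ) j) fun x y h => by
    obtain ⟨c, hc⟩ := QuotientGroup.rightRel_apply.1 h
    have : ∀ i, y i = c * x i := fun i => eq_mul_of_mul_inv_eq (congrFun hc i).symm
    ext j i
    simp [this]
  invFun w := ⟦Fin.cons 1 fun i j => w j i⟧
  left_inv := by
    rintro ⟨x⟩
    refine Quotient.sound (QuotientGroup.rightRel_apply.2 ⟨x 0, funext fun i => ?_⟩)
    refine Fin.cases (by simp) (fun i => funext fun j => by simp) i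
  right_inv w := by ext j i; simp

lemma crd_eq {m : ℕ} (x y : Fin (m + 1) → Fin 2 → H) (j : Fin 2) :
    crd H m ⟦x⟧ j = crd H m ⟦y⟧ j ↔
      ∀ i i', ((y i * (x i)⁻¹)⁻¹ * (y i' * (x i')⁻¹)) j = 1 := by
  have key : ∀ a b c d : H, a⁻¹ * b = c⁻¹ * d ↔ c * a⁻¹ = d * b⁻¹ := fun a b c d => by
    rw [eq_mul_inv_iff_mul_eq, mul_assoc, eq_inv_mul_iff_mul_eq]
  simp only [Pi.mul_apply, Pi.inv_apply, inv_mul_eq_one]
  constructor
  · intro h
    have : ∀ i, y 0 j * (x 0 j)⁻¹ = y i j * (x i j)⁻¹ :=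
      Fin.cases rfl fun i => (key _ _ _ _).1 (congrFun h i)
    exact fun i i' => (this i).symm.trans (this i')
  · exact fun h => funext fun i => (key _ _ _ _).2 (h 0 i.succ)

lemma pres (hG : Good H e) (m : ℕ) (hm : 1 < m) : Preserves (D (Fin 2 → H) m) := by
  have : Nontrivial H := ⟨_, _, hG.ne 0 1 one_pos⟩
  have : Nonempty (Fin m) := ⟨⟨0, by omega⟩⟩
  have key : ∀ g ∈ D (Fin 2 → H) m, ∃ τ : Equiv.Perm (Fin 2), ∀ a b i,
      crd H m (g a) i = crd H m (g b) i ↔ crd H m a (τ i) = crd H m b (τ i) := by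
    intro g hg
    induction hg using Subgroup.closure_induction with
    | one => exact ⟨1, fun _ _ _ => Iff.rfl⟩
    | mul x y _ _ hx hy =>
      obtain ⟨τ, hx⟩ := hx
      obtain ⟨τ', hy⟩ := hy
      exact ⟨τ' * τ, fun a b i => (hx _ _ _).trans (hy _ _ _)⟩
    | inv x _ hx =>
      obtain ⟨τ, hx⟩ := hx
      exact ⟨τ⁻¹, fun a b i => by simpa using (hx (x⁻¹ a) (x⁻¹ b) (τ⁻¹ i)).symm⟩
    | mem π h =>
      rcases h with ⟨t, h⟩ | ⟨α, h⟩ | ⟨σ, h⟩
      · refine ⟨1, fun a b i => Quotient.inductionOn₂ a b fun x y => ?_⟩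
        simp [h, crd_eq, mul_assoc]
      · obtain ⟨σ, hσ⟩ := autperm hG α
        refine ⟨σ, fun a b i => Quotient.inductionOn₂ a b fun x y => ?_⟩
        simp only [h, crd_eq, ← map_inv, ← map_mul, hσ]
      · refine ⟨1, fun a b i => Quotient.inductionOn₂ a b fun x y => ?_⟩
        rw [h, h, crd_eq, crd_eq]
        exact ⟨fun hh i i' => by simpa using hh (σ⁻¹ i) (σ⁻¹ i'), fun hh i i' => hh _ _⟩
  refine ⟨Fin m → H, 2, crd H m, inferInstance, le_rfl, fun g hg => ?_⟩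
  obtain ⟨τ, hτ⟩ := key g hg
  have im : ∀ J, Prod.map g g '' Q (crd H m) J = Q (crd H m) (τ ⁻¹' J) := fun J => by
    ext ⟨a, b⟩
    constructor
    · rintro ⟨⟨a', b'⟩, h, e'⟩
      obtain ⟨rfl, rfl⟩ := Prod.ext_iff.1 e'
      exact fun i hi => (hτ _ _ _).2 (h _ hi)
    · refine fun h => ⟨(g⁻¹ a, g⁻¹ b), fun i hi => ?_, by simp⟩
      simpa using (hτ (g⁻¹ a) (g⁻¹ b) (τ⁻¹ i)).1 (by simpa using h (τ⁻¹ i) (by simpa using hi))
  ext P
  constructor
  · rintro ⟨_, ⟨J, rfl⟩, rfl⟩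
    exact ⟨_, (im J).symm⟩
  · rintro ⟨J, rfl⟩
    exact ⟨_, ⟨τ '' J, rfl⟩, by simp only [im, τ.injective.preimage_image]⟩

theorem result : ∃ (T : Type) (_ : Group T), (∃ a b : T, a * b ≠ b * a) ∧
    (∀ K : Subgroup T, K.Characteristic → K = ⊥ ∨ K = ⊤) ∧ ¬ IsSimpleGroup T ∧
    (∀ (S : Type) [Group S] (k : ℕ), IsSimpleGroup S → 1 ≤ k → IsEmpty (T ≃* (Fin k → S))) ∧
    ∀ m, 1 < m → Preserves (D T m) := by
  have hG := good
  refine ⟨Fin 2 → M, inferInstance, ?_, fun K hK => ?_, fun h => ?_, fun S _ k hS hk => ⟨fun φ => ?_⟩,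
    pres hG⟩
  · by_contra hn
    push Not at hn
    exact hG.ne 0 1 one_pos (central hG fun k => congrFun (hn (fun _ => _) fun _ => k) 0)
  · refine K.bot_or_exists_ne_one.imp_right fun ⟨x, hx, hx1⟩ => ?_
    obtain ⟨j, a, b, hab, h⟩ := nmem hG K hx hx1
    have h1 : ∀ i h, Pi.mulSingle i h ∈ K := fun i h' => by
      refine (show ⊤ ≤ K.comap (MonoidHom.mulSingle (fun _ => M) i) from ?_) (Subgroup.mem_top h')
      rw [← hG.gen, Subgroup.closure_le]
      rintro _ ⟨α, β, hαβ, rfl⟩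
      obtain ⟨φ, hφ⟩ := hG.aut a b α β hab hαβ
      have := Subgroup.characteristic_iff_le_comap.1 hK
        (MulEquiv.arrowCongr (Equiv.swap j i) φ) (h a le_rfl b le_rfl)
      show Pi.mulSingle i (e α β) ∈ K
      convert Subgroup.mem_comap.1 this using 1
      ext l : 1
      by_cases hl : l = i
      · simp [hl, hφ]
      · have : Equiv.swap j i l ≠ j := by rw [Ne, Equiv.swap_apply_eq_iff]; simpa using hl
        simp [hl, this]
    rw [eq_top_iff]
    intro t _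
    rw [dec t]
    exact K.mul_mem (h1 _ _) (h1 _ _)
  · have : (MonoidHom.id (Fin 2 → M)).range.Normal := by
      rw [MonoidHom.range_eq_top.2 Function.surjective_id]; infer_instance
    exact nosimple hG _ (MonoidHom.id _) Function.injective_id
  · let ι := φ.symm.toMonoidHom.comp (MonoidHom.mulSingle (fun _ : Fin k => S) ⟨0, hk⟩)
    have : ι.range.Normal := ⟨by
      rintro _ ⟨s, rfl⟩ g
      refine ⟨φ g ⟨0, hk⟩ * s * (φ g ⟨0, hk⟩)⁻¹, φ.injective ?_⟩
      ext l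
      by_cases hl : l = ⟨0, hk⟩ <;> simp [ι, hl]⟩
    exact nosimple hG S ι (φ.symm.injective.comp (Pi.mulSingle_injective (M := fun _ => S) _))

end Pool.Agent.Results.MP_f6f6d4_al.Yes
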